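import Pool.Agent.KS6_55.SR.Main

/-!
# Uniformly semi-rational groups attain the bound `2 ^ (l + 1)` for the degree of the character field

For every `l ≥ 8` there is a uniformly semi-rational group whose order has exactly `l` prime
divisors and whose character field has degree at least `2 ^ (l + 1)` over the rationals.
The groups are `{(s, d) ∈ S_n × K : sgn s = ep d}`, where `K = C_8 ⋊ D_8` has order `64`, and where
`n` is even and such that there are exactly `l` primes up to `n`.
-/

set_option autoImplicit false

open Pool.Agent.KS6_55.SR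

namespace Pool.Agent.Results.MP_fc75c6_al.TentBoundAttained

/-- `G` is `m`-semi-rational: for every `x`, every generator of `⟨x⟩` is conjugate to `x` or to
`x ^ m`. -/
def IsSemiRationalWith (m : ℤ) (G : Type) [Group G] : Prop :=
  ∀ x y : G, Subgroup.zpowers y = Subgroup.zpowers x → IsConj x y ∨ IsConj (x ^ m) y

/-- `G` is uniformly semi-rational: it is `m`-semi-rational for some integer `m`. -/
def UniformlySemiRational (G : Type) [Group G] : Prop := ∃ m : ℤ, IsSemiRationalWith m G

/-- `chi` is the character of an irreducible complex representation of `G` of finite dimension. -/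
def IsIrreducibleCharacter {G : Type} [Group G] (chi : G → ℂ) : Prop :=
  ∃ (V : Type) (_ : AddCommGroup V) (_ : Module ℂ V) (_ : FiniteDimensional ℂ V)
    (rho : Representation ℂ G V), rho.IsIrreducible ∧ chi = rho.character

/-- The field generated over `ℚ` by all values of the complex irreducible characters of `G`. -/
noncomputable def characterField (G : Type) [Group G] : IntermediateField ℚ ℂ :=
  IntermediateField.adjoin ℚ {z : ℂ | ∃ chi : G → ℂ, IsIrreducibleCharacter chi ∧
    ∃ x : G, chi x = z}

theorem uniformly (n : ℕ) : UniformlySemiRational (GG n) := by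
  obtain ⟨m, hm⟩ := semi_key n
  refine ⟨m, ?_⟩
  intro x y hxy
  have h1 : y ∈ Submonoid.powers x := by
    rw [mem_powers_iff_mem_zpowers, ← hxy]
    exact Subgroup.mem_zpowers y
  obtain ⟨j, hj⟩ := h1
  have hj : x ^ j = y := hj
  have h2 : orderOf y = orderOf x := by
    rw [← Nat.card_zpowers, ← Nat.card_zpowers, hxy]
  have h3 : Nat.Coprime j (orderOf x) := by
    rw [← hj, orderOf_pow] at h2
    have h4 : 0 < orderOf x := orderOf_pos x
    have h5 : Nat.gcd (orderOf x) j ∣ orderOf x := Nat.gcd_dvd_left _ _
    obtain ⟨k, hk⟩ := h5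
    have h6 : 0 < Nat.gcd (orderOf x) j := Nat.gcd_pos_of_pos_left _ h4
    have h7 : orderOf x / Nat.gcd (orderOf x) j = k := by
      conv_lhs => lhs; rw [hk]
      exact Nat.mul_div_cancel_left k h6
    rw [h7] at h2
    rw [← h2] at hk
    have h8 : 0 < k := by rw [h2]; exact h4
    have h9 : Nat.gcd (orderOf x) j = 1 := by
      have h10 : Nat.gcd (orderOf x) j * k = 1 * k := by
        rw [one_mul]
        conv_rhs => rw [hk]
        rw [h2]
      exact Nat.eq_of_mul_eq_mul_right h8 h10
    rw [Nat.gcd_comm] at h9
    exact h9
  rcases hm x j h3 with h4 | h4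
  · left
    rwa [hj] at h4
  · right
    rw [hj] at h4
    rwa [zpow_natCast]

/-- For every `l ≥ 8` there is a finite uniformly semi-rational group `G` whose order has exactly
`l` prime divisors, with `[ℚ(G) : ℚ] ≥ 2 ^ (l + 1)`. -/
theorem result (l : ℕ) (hl : 8 ≤ l) : ∃ (G : Type) (_ : Group G) (_ : Finite G),
    UniformlySemiRational G ∧ (Nat.card G).primeFactors.card = l ∧
      2 ^ (l + 1) ≤ Module.finrank ℚ (characterField G) := by
  obtain ⟨n, N, hn, h11, h12, h13, hc⟩ := choose_n l hl
  refine ⟨GG n, inferInstance, inferInstance, uniformly n, ?_, ?_⟩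
  · rw [primes_GG, hc]
  · have h := degree hn h11 h12 h13
    have e : 2 ^ (l + 1) = 4 * 2 ^ (oddP n).card := by
      rw [← hc]
      ring
    rw [e]
    exact h

end Pool.Agent.Results.MP_fc75c6_al.TentBoundAttained
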